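import Mathlib

/-!
# MP_adcce9: direct sums which do not embed isometrically in the Sierpiński space
-/

namespace Pool.Agent.Results.MP_adcce9_an.NoIsometricCopies

open Filter Topology

/-- The finite sets `C ⊆ ℕ` on which `θ` is (strictly) increasing. -/
def Clique (θ : ℕ → ℚ) (C : Finset ℕ) : Prop := ∀ i ∈ C, ∀ j ∈ C, i < j → θ i < θ j

/-- The norm `‖x‖ = sup_C ∑_{i ∈ C} |x i|` of a finitely supported sequence; the supremum is over
the cliques `C`. -/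
noncomputable def cliqueNorm {𝕜 : Type} [RCLike 𝕜] (θ : ℕ → ℚ) (x : ℕ →₀ 𝕜) : ℝ :=
  ⨆ C : {C : Finset ℕ // Clique θ C}, ∑ i ∈ C.1, ‖x i‖

/-- `c₀₀`, to be normed by `cliqueNorm θ`. -/
def C00 (_θ : ℕ → ℚ) (𝕜 : Type) [RCLike 𝕜] : Type := ℕ →₀ 𝕜

section Norm

variable {𝕜 : Type} [RCLike 𝕜] {θ : ℕ → ℚ}

noncomputable instance : AddCommGroup (C00 θ 𝕜) := inferInstanceAs (AddCommGroup (ℕ →₀ 𝕜))
noncomputable instance : Module 𝕜 (C00 θ 𝕜) := inferInstanceAs (Module 𝕜 (ℕ →₀ 𝕜))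

noncomputable instance : Norm (C00 θ 𝕜) := ⟨fun x => cliqueNorm θ (x : ℕ →₀ 𝕜)⟩

/-- The finitely supported function underlying an element of `C00 θ 𝕜`. -/
def toF (x : C00 θ 𝕜) : ℕ →₀ 𝕜 := x

lemma toF_add (x y : C00 θ 𝕜) : toF (x + y) = toF x + toF y := rfl
lemma toF_sub (x y : C00 θ 𝕜) : toF (x - y) = toF x - toF y := rfl
lemma toF_smul (c : 𝕜) (x : C00 θ 𝕜) : toF (c • x) = c • toF x := rfl
lemma norm_def (x : C00 θ 𝕜) : ‖x‖ = cliqueNorm θ (toF x) := rfl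

lemma bdd (x : ℕ →₀ 𝕜) :
    BddAbove (Set.range fun C : {C : Finset ℕ // Clique θ C} => ∑ i ∈ C.1, ‖x i‖) := by
  refine ⟨∑ i ∈ x.support, ‖x i‖, ?_⟩
  rintro _ ⟨C, rfl⟩
  show ∑ i ∈ C.1, ‖x i‖ ≤ _
  have h1 : ∑ i ∈ C.1, ‖x i‖ = ∑ i ∈ C.1 ∩ x.support, ‖x i‖ := by
    rw [← Finset.sum_subset (Finset.inter_subset_left : C.1 ∩ x.support ⊆ C.1)]
    intro i hi hi'
    have : i ∉ x.support := fun h => hi' (Finset.mem_inter.mpr ⟨hi, h⟩)
    simp [Finsupp.notMem_support_iff.mp this]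
  rw [h1]
  exact Finset.sum_le_sum_of_subset_of_nonneg Finset.inter_subset_right
    (fun _ _ _ => norm_nonneg _)

lemma clique_empty : Clique θ ∅ := by intro i hi; simp at hi

lemma clique_singleton (k : ℕ) : Clique θ {k} := by
  intro i hi j hj hij
  rw [Finset.mem_singleton] at hi hj
  omega

instance : Nonempty {C : Finset ℕ // Clique θ C} := ⟨⟨∅, clique_empty⟩⟩

lemma le_cliqueNorm (x : ℕ →₀ 𝕜) {C : Finset ℕ} (hC : Clique θ C) :
    ∑ i ∈ C, ‖x i‖ ≤ cliqueNorm θ x := le_ciSup (bdd x) ⟨C, hC⟩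

lemma cliqueNorm_le {x : ℕ →₀ 𝕜} {r : ℝ} (h : ∀ C : Finset ℕ, Clique θ C → ∑ i ∈ C, ‖x i‖ ≤ r) :
    cliqueNorm θ x ≤ r := ciSup_le fun C => h C.1 C.2

lemma coord_le (x : ℕ →₀ 𝕜) (k : ℕ) : ‖x k‖ ≤ cliqueNorm θ x := by
  simpa using le_cliqueNorm x (clique_singleton k)

lemma cliqueNorm_nonneg (x : ℕ →₀ 𝕜) : 0 ≤ cliqueNorm θ x :=
  (norm_nonneg (x 0)).trans (coord_le x 0)

lemma core : NormedSpace.Core 𝕜 (C00 θ 𝕜) where
  norm_nonneg x := cliqueNorm_nonneg (toF x)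
  norm_smul c x := by
    show cliqueNorm θ (toF (c • x)) = ‖c‖ * cliqueNorm θ (toF x)
    have h : ∀ C : Finset ℕ, ∑ i ∈ C, ‖(toF (c • x)) i‖ = ‖c‖ * ∑ i ∈ C, ‖toF x i‖ := by
      intro C
      rw [Finset.mul_sum]
      apply Finset.sum_congr rfl
      intro i _
      rw [toF_smul, Finsupp.smul_apply, smul_eq_mul, norm_mul]
    unfold cliqueNorm
    simp only [h]
    rw [Real.mul_iSup_of_nonneg (norm_nonneg c)]
  norm_triangle x y := by
    show cliqueNorm θ (toF (x + y)) ≤ cliqueNorm θ (toF x) + cliqueNorm θ (toF y)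
    apply cliqueNorm_le
    intro C hC
    calc ∑ i ∈ C, ‖(toF (x + y)) i‖ ≤ ∑ i ∈ C, (‖toF x i‖ + ‖toF y i‖) := by
          apply Finset.sum_le_sum
          intro i _
          rw [toF_add, Finsupp.add_apply]
          exact norm_add_le _ _
      _ = ∑ i ∈ C, ‖toF x i‖ + ∑ i ∈ C, ‖toF y i‖ := Finset.sum_add_distrib
      _ ≤ _ := add_le_add (le_cliqueNorm _ hC) (le_cliqueNorm _ hC)
  norm_eq_zero_iff x := by
    show cliqueNorm θ (toF x) = 0 ↔ x = 0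
    constructor
    · intro h
      have : toF x = 0 := by
        ext k
        have := coord_le (θ := θ) (toF x) k
        rw [h] at this
        simpa using le_antisymm this (norm_nonneg _)
      exact this
    · rintro rfl
      apply le_antisymm _ (cliqueNorm_nonneg _)
      apply cliqueNorm_le
      intro C _
      have : ∀ i, toF (0 : C00 θ 𝕜) i = 0 := fun _ => rfl
      simp [this]

noncomputable instance : NormedAddCommGroup (C00 θ 𝕜) := NormedAddCommGroup.ofCore core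
noncomputable instance : NormedSpace 𝕜 (C00 θ 𝕜) := NormedSpace.ofCore core

end Norm

/-- The Sierpiński space `X_θ` over `𝕜 = ℝ` or `ℂ`: the completion of `c₀₀` for `cliqueNorm θ`. -/
abbrev Sierpinski (θ : ℕ → ℚ) (𝕜 : Type) [RCLike 𝕜] : Type :=
  UniformSpace.Completion (C00 θ 𝕜)

section Core

variable {𝕜 : Type} [RCLike 𝕜] {θ : ℕ → ℚ}

lemma split (C : Finset ℕ) (M : ℕ) (g : ℕ → ℝ) :
    ∑ i ∈ C, g i = ∑ i ∈ C.filter (· < M), g i + ∑ i ∈ C.filter (fun i => ¬ i < M), g i :=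
  (Finset.sum_filter_add_sum_filter_not C _ g).symm

/-- If `‖a + c‖` is almost `2` for an early vector `a` and a late vector `c`, then there are
cliques which almost norm `a` and `c` and whose union is a clique. -/
lemma exists_cliques (M : ℕ) (a c : C00 θ 𝕜) (haM : ∀ i, M ≤ i → toF a i = 0)
    (ha : ‖a‖ ≤ 1 + 1 / 20) (hc : ‖c‖ ≤ 1 + 1 / 20)
    (hcM : ∑ i ∈ Finset.range M, ‖toF c i‖ ≤ 1 / 20) (hac : 2 - 1 / 20 ≤ ‖a + c‖) :
    ∃ F G : Finset ℕ, Clique θ F ∧ Clique θ G ∧ (∀ i ∈ F, i < M) ∧ (∀ j ∈ G, M ≤ j) ∧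
      (∀ i ∈ F, ∀ j ∈ G, θ i < θ j) ∧ 1 - 1 / 5 ≤ ∑ i ∈ F, ‖toF a i‖ ∧
      1 - 1 / 5 ≤ ∑ i ∈ G, ‖toF c i‖ := by
  have hlt : (2 : ℝ) - 1 / 10 < ‖a + c‖ := by linarith
  obtain ⟨⟨C, hC⟩, hCs⟩ := exists_lt_of_lt_ciSup hlt
  simp only at hCs
  have cl : ∀ p : ℕ → Prop, [DecidablePred p] → Clique θ (C.filter p) := by
    intro p _ i hi j hj hij
    exact hC i (Finset.mem_filter.mp hi).1 j (Finset.mem_filter.mp hj).1 hij
  rw [split C M] at hCs
  set F := C.filter (· < M) with hF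
  set G := C.filter (fun i => ¬ i < M) with hG
  have hF' : ∀ i ∈ F, i < M := fun i hi => (Finset.mem_filter.mp hi).2
  have hG' : ∀ i ∈ G, M ≤ i := fun i hi => not_lt.mp (Finset.mem_filter.mp hi).2
  have s1 : ∑ i ∈ F, ‖toF (a + c) i‖ ≤ ∑ i ∈ F, ‖toF a i‖ + 1 / 20 := by
    calc ∑ i ∈ F, ‖toF (a + c) i‖ ≤ ∑ i ∈ F, (‖toF a i‖ + ‖toF c i‖) := by
          apply Finset.sum_le_sum
          intro i _
          rw [toF_add, Finsupp.add_apply]
          exact norm_add_le _ _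
      _ = ∑ i ∈ F, ‖toF a i‖ + ∑ i ∈ F, ‖toF c i‖ := Finset.sum_add_distrib
      _ ≤ _ := by
          gcongr
          refine le_trans ?_ hcM
          apply Finset.sum_le_sum_of_subset_of_nonneg
          · intro i hi
            exact Finset.mem_range.mpr (hF' i hi)
          · intro _ _ _; exact norm_nonneg _
  have s2 : ∑ i ∈ G, ‖toF (a + c) i‖ = ∑ i ∈ G, ‖toF c i‖ := by
    apply Finset.sum_congr rfl
    intro i hi
    rw [toF_add, Finsupp.add_apply, haM i (hG' i hi), zero_add]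
  have s3 : ∑ i ∈ F, ‖toF a i‖ ≤ 1 + 1 / 20 := (le_cliqueNorm _ (cl _)).trans ha
  have s4 : ∑ i ∈ G, ‖toF c i‖ ≤ 1 + 1 / 20 := (le_cliqueNorm _ (cl _)).trans hc
  have hCs' : 2 - 1 / 10 < ∑ i ∈ F, ‖toF (a + c) i‖ + ∑ i ∈ G, ‖toF (a + c) i‖ := hCs
  refine ⟨F, G, cl _, cl _, hF', hG', ?_, ?_, ?_⟩
  · intro i hi j hj
    exact hC i (Finset.mem_filter.mp hi).1 j (Finset.mem_filter.mp hj).1
      (lt_of_lt_of_le (hF' i hi) (hG' j hj))
  · linarith
  · linarith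

/-- An early clique and a late clique with a clique as union show that `‖a + d‖` is large. -/
lemma large_sum (M : ℕ) (a d : C00 θ 𝕜) (haM : ∀ i, M ≤ i → toF a i = 0)
    (hdM : ∑ i ∈ Finset.range M, ‖toF d i‖ ≤ 1 / 20) (F G : Finset ℕ) (hF : Clique θ F)
    (hG : Clique θ G) (hFM : ∀ i ∈ F, i < M) (hGM : ∀ j ∈ G, M ≤ j)
    (hFG : ∀ i ∈ F, ∀ j ∈ G, θ i < θ j) (h1 : 1 - 1 / 5 ≤ ∑ i ∈ F, ‖toF a i‖)
    (h2 : 1 - 1 / 5 ≤ ∑ i ∈ G, ‖toF d i‖) : 1 + 1 / 20 < ‖a + d‖ := by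
  have hU : Clique θ (F ∪ G) := by
    intro i hi j hj hij
    rcases Finset.mem_union.mp hi with hi | hi <;> rcases Finset.mem_union.mp hj with hj | hj
    · exact hF i hi j hj hij
    · exact hFG i hi j hj
    · have := hGM i hi
      have := hFM j hj
      omega
    · exact hG i hi j hj hij
  have hdisj : Disjoint F G := by
    rw [Finset.disjoint_left]
    intro i hi hi'
    have := hFM i hi
    have := hGM i hi'
    omega
  have key := le_cliqueNorm (toF (a + d)) hU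
  rw [Finset.sum_union hdisj] at key
  have s1 : ∑ i ∈ F, ‖toF a i‖ - 1 / 20 ≤ ∑ i ∈ F, ‖toF (a + d) i‖ := by
    have e1 : ∑ i ∈ F, (‖toF a i‖ - ‖toF d i‖) ≤ ∑ i ∈ F, ‖toF (a + d) i‖ := by
      apply Finset.sum_le_sum
      intro i _
      rw [toF_add, Finsupp.add_apply]
      have := norm_sub_le (toF a i + toF d i) (toF d i)
      rw [add_sub_cancel_right] at this
      linarith
    have e2 : ∑ i ∈ F, ‖toF d i‖ ≤ 1 / 20 := by
      refine le_trans ?_ hdM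
      apply Finset.sum_le_sum_of_subset_of_nonneg
      · intro i hi
        exact Finset.mem_range.mpr (hFM i hi)
      · intro _ _ _; exact norm_nonneg _
    rw [Finset.sum_sub_distrib] at e1
    linarith
  have s2 : ∑ i ∈ G, ‖toF (a + d) i‖ = ∑ i ∈ G, ‖toF d i‖ := by
    apply Finset.sum_congr rfl
    intro i hi
    rw [toF_add, Finsupp.add_apply, haM i (hGM i hi), zero_add]
  rw [norm_def]
  linarith

/-- The core of the argument: two early vectors `a, b` and two late vectors `c, d`. -/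
lemma four_vectors (M : ℕ) (a b c d : C00 θ 𝕜) (haM : ∀ i, M ≤ i → toF a i = 0)
    (hbM : ∀ i, M ≤ i → toF b i = 0) (ha : ‖a‖ ≤ 1 + 1 / 20) (hb : ‖b‖ ≤ 1 + 1 / 20)
    (hc : ‖c‖ ≤ 1 + 1 / 20) (hd : ‖d‖ ≤ 1 + 1 / 20)
    (hcM : ∑ i ∈ Finset.range M, ‖toF c i‖ ≤ 1 / 20)
    (hdM : ∑ i ∈ Finset.range M, ‖toF d i‖ ≤ 1 / 20)
    (hac : 2 - 1 / 20 ≤ ‖a + c‖) (hbd : 2 - 1 / 20 ≤ ‖b + d‖)
    (had : ‖a + d‖ ≤ 1 + 1 / 20) (hbc : ‖b + c‖ ≤ 1 + 1 / 20) : False := by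
  obtain ⟨F1, G1, hF1, hG1, hF1M, hG1M, h1, m1, m2⟩ := exists_cliques M a c haM ha hc hcM hac
  obtain ⟨F2, G2, hF2, hG2, hF2M, hG2M, h2, m3, m4⟩ := exists_cliques M b d hbM hb hd hdM hbd
  by_cases hcase : ∀ i ∈ F1, ∀ j ∈ G2, θ i < θ j
  · have := large_sum M a d haM hdM F1 G2 hF1 hG2 hF1M hG2M hcase m1 m4
    linarith
  · push Not at hcase
    obtain ⟨i1, hi1, j2, hj2, hle⟩ := hcase
    have := large_sum M b c hbM hcM F2 G1 hF2 hG1 hF2M hG1M
      (fun i hi j hj => (h2 i hi j2 hj2).trans_le (hle.trans (h1 i1 hi1 j hj).le)) m3 m2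
    linarith

lemma exists_close_pair (M : ℕ) (R : ℝ) (z : ℕ → Fin M → 𝕜 × 𝕜) (hz : ∀ n, ‖z n‖ ≤ R) (ε : ℝ)
    (hε : 0 < ε) : ∃ n n', n < n' ∧ ‖z n - z n'‖ < ε := by
  obtain ⟨l, -, φ, hφ, hlim⟩ := tendsto_subseq_of_bounded
    (Metric.isBounded_closedBall (x := (0 : Fin M → 𝕜 × 𝕜)) (r := R))
    (x := z) (fun n => by simpa using hz n)
  have hc := hlim.cauchySeq
  obtain ⟨N, hN⟩ := Metric.cauchySeq_iff.mp hc ε hε
  refine ⟨φ N, φ (N + 1), hφ (Nat.lt_succ_self N), ?_⟩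
  have := hN N le_rfl (N + 1) (Nat.le_succ N)
  rwa [dist_eq_norm] at this

/-- The obstruction in the completed space. -/
theorem obstruction (a b : Sierpinski θ 𝕜) (u v : ℕ → Sierpinski θ 𝕜) (l : 𝕜) (hl : ‖l‖ ≤ 1)
    (R : ℝ) (hu : ∀ n, ‖u n‖ ≤ R) (hv : ∀ n, ‖v n‖ ≤ R)
    (ha : ‖a‖ ≤ 1) (hb : ‖b‖ ≤ 1)
    (hc : ∀ n n', n < n' → ‖l • (v n - v n')‖ ≤ 1) (hd : ∀ n n', n < n' → ‖l • (u n - u n')‖ ≤ 1)
    (hac : ∀ n n', n < n' → 2 ≤ ‖a + l • (v n - v n')‖)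
    (hbd : ∀ n n', n < n' → 2 ≤ ‖b + l • (u n - u n')‖)
    (had : ∀ n n', n < n' → ‖a + l • (u n - u n')‖ ≤ 1)
    (hbc : ∀ n n', n < n' → ‖b + l • (v n - v n')‖ ≤ 1) : False := by
  have happ : ∀ x : Sierpinski θ 𝕜, ∃ y : C00 θ 𝕜, ‖x - (y : Sierpinski θ 𝕜)‖ < 1 / 100 := by
    intro x
    obtain ⟨y, hy⟩ := (UniformSpace.Completion.denseRange_coe (α := C00 θ 𝕜)).exists_dist_lt x
      (by norm_num : (0 : ℝ) < 1 / 100)
    exact ⟨y, by rwa [dist_eq_norm] at hy⟩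
  obtain ⟨a', ha'⟩ := happ a
  obtain ⟨b', hb'⟩ := happ b
  choose u' hu' using fun n => happ (u n)
  choose v' hv' using fun n => happ (v n)
  obtain ⟨M, hM⟩ : ∃ M : ℕ, ∀ i, M ≤ i → toF a' i = 0 ∧ toF b' i = 0 := by
    refine ⟨((toF a').support ∪ (toF b').support).sup id + 1, fun i hi => ?_⟩
    have hnot : i ∉ (toF a').support ∪ (toF b').support := by
      intro hmem
      have := Finset.le_sup (f := id) hmem
      simp only [id] at this
      omega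
    rw [Finset.mem_union, not_or] at hnot
    exact ⟨Finsupp.notMem_support_iff.mp hnot.1, Finsupp.notMem_support_iff.mp hnot.2⟩
  have hu'R : ∀ n, ‖u' n‖ ≤ R + 1 := by
    intro n
    have h1 : ‖(u' n : Sierpinski θ 𝕜)‖ ≤ ‖u n‖ + ‖u n - u' n‖ := by
      have := norm_sub_le (u n) (u n - u' n)
      rwa [sub_sub_cancel] at this
    rw [UniformSpace.Completion.norm_coe] at h1
    have := hu n
    have := hu' n
    linarith
  have hv'R : ∀ n, ‖v' n‖ ≤ R + 1 := by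
    intro n
    have h1 : ‖(v' n : Sierpinski θ 𝕜)‖ ≤ ‖v n‖ + ‖v n - v' n‖ := by
      have := norm_sub_le (v n) (v n - v' n)
      rwa [sub_sub_cancel] at this
    rw [UniformSpace.Completion.norm_coe] at h1
    have := hv n
    have := hv' n
    linarith
  obtain ⟨n, n', hnn, hclose⟩ := exists_close_pair (𝕜 := 𝕜) M (R + 1)
    (fun n i => (toF (u' n) i, toF (v' n) i))
    (by
      intro n
      have hR : 0 ≤ R + 1 := le_trans (norm_nonneg _) (hu'R n)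
      rw [pi_norm_le_iff_of_nonneg hR]
      intro i
      rw [Prod.norm_def]
      exact max_le ((coord_le _ _).trans (hu'R n)) ((coord_le _ _).trans (hv'R n)))
    (1 / (20 * (M + 1))) (by positivity)
  have hcoordu : ∀ i : Fin M, ‖toF (u' n) i - toF (u' n') i‖ ≤ 1 / (20 * (M + 1)) := by
    intro i
    have h1 := (norm_le_pi_norm _ i).trans hclose.le
    simp only [Pi.sub_apply] at h1
    rw [Prod.norm_def] at h1
    exact (le_max_left _ _).trans h1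
  have hcoordv : ∀ i : Fin M, ‖toF (v' n) i - toF (v' n') i‖ ≤ 1 / (20 * (M + 1)) := by
    intro i
    have h1 := (norm_le_pi_norm _ i).trans hclose.le
    simp only [Pi.sub_apply] at h1
    rw [Prod.norm_def] at h1
    exact (le_max_right _ _).trans h1
  set d' : C00 θ 𝕜 := l • (u' n - u' n') with hd'
  set c' : C00 θ 𝕜 := l • (v' n - v' n') with hc'
  have small : ∀ (w : ℕ → C00 θ 𝕜),
      (∀ i : Fin M, ‖toF (w n) i - toF (w n') i‖ ≤ 1 / (20 * (M + 1))) →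
      ∑ i ∈ Finset.range M, ‖toF (l • (w n - w n')) i‖ ≤ 1 / 20 := by
    intro w hw
    calc ∑ i ∈ Finset.range M, ‖toF (l • (w n - w n')) i‖
        ≤ ∑ _i ∈ Finset.range M, (1 / (20 * ((M : ℝ) + 1))) := by
          apply Finset.sum_le_sum
          intro i hi
          rw [toF_smul, toF_sub, Finsupp.smul_apply, Finsupp.sub_apply, smul_eq_mul, norm_mul]
          have h1 := hw ⟨i, Finset.mem_range.mp hi⟩
          calc ‖l‖ * ‖toF (w n) i - toF (w n') i‖ ≤ 1 * ‖toF (w n) i - toF (w n') i‖ := by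
                gcongr
            _ ≤ _ := by rw [one_mul]; exact h1
      _ = M * (1 / (20 * ((M : ℝ) + 1))) := by simp
      _ ≤ 1 / 20 := by
          rw [mul_one_div, div_le_div_iff₀ (by positivity) (by norm_num)]
          nlinarith
  -- errors
  have err : ∀ (w : ℕ → Sierpinski θ 𝕜) (w' : ℕ → C00 θ 𝕜),
      (∀ n, ‖w n - (w' n : Sierpinski θ 𝕜)‖ < 1 / 100) →
      ‖l • (w n - w n') - ((l • (w' n - w' n') : C00 θ 𝕜) : Sierpinski θ 𝕜)‖ ≤ 1 / 50 := by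
    intro w w' hw
    rw [UniformSpace.Completion.coe_smul, UniformSpace.Completion.coe_sub, ← smul_sub]
    have : w n - w n' - ((w' n : Sierpinski θ 𝕜) - (w' n' : Sierpinski θ 𝕜))
        = (w n - w' n) - (w n' - w' n') := by abel
    rw [this, norm_smul]
    have h1 := norm_sub_le (w n - (w' n : Sierpinski θ 𝕜)) (w n' - (w' n' : Sierpinski θ 𝕜))
    have h2 := hw n
    have h3 := hw n'
    calc ‖l‖ * _ ≤ 1 * ‖(w n - (w' n : Sierpinski θ 𝕜)) - (w n' - (w' n' : Sierpinski θ 𝕜))‖ := by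
          gcongr
      _ ≤ 1 / 50 := by rw [one_mul]; linarith
  have ed := err u u' hu'
  have ec := err v v' hv'
  rw [← hd'] at ed
  rw [← hc'] at ec
  have up : ∀ (x : Sierpinski θ 𝕜) (y : C00 θ 𝕜) (r s : ℝ), ‖x - y‖ ≤ s → ‖x‖ ≤ r →
      ‖y‖ ≤ r + s := by
    intro x y r s h1 h2
    have h3 := norm_sub_le x (x - y)
    rw [sub_sub_cancel, UniformSpace.Completion.norm_coe] at h3
    linarith
  have low : ∀ (x : Sierpinski θ 𝕜) (y : C00 θ 𝕜) (r s : ℝ), ‖x - y‖ ≤ s → r ≤ ‖x‖ →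
      r - s ≤ ‖y‖ := by
    intro x y r s h1 h2
    have h3 := norm_add_le (x - y) (y : Sierpinski θ 𝕜)
    rw [sub_add_cancel, UniformSpace.Completion.norm_coe] at h3
    linarith
  have sum : ∀ (x x2 : Sierpinski θ 𝕜) (y y2 : C00 θ 𝕜), ‖x - y‖ ≤ 1 / 100 →
      ‖x2 - y2‖ ≤ 1 / 50 → ‖x + x2 - ((y + y2 : C00 θ 𝕜) : Sierpinski θ 𝕜)‖ ≤ 3 / 100 := by
    intro x x2 y y2 h1 h2
    rw [UniformSpace.Completion.coe_add]
    have : x + x2 - ((y : Sierpinski θ 𝕜) + y2) = (x - y) + (x2 - y2) := by abel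
    rw [this]
    have := norm_add_le (x - (y : Sierpinski θ 𝕜)) (x2 - y2)
    linarith
  refine four_vectors M a' b' c' d' (fun i hi => (hM i hi).1) (fun i hi => (hM i hi).2)
    ?_ ?_ ?_ ?_ (small v' hcoordv) (small u' hcoordu) ?_ ?_ ?_ ?_
  · have := up a a' 1 (1 / 100) ha'.le ha; linarith
  · have := up b b' 1 (1 / 100) hb'.le hb; linarith
  · have := up _ c' 1 (1 / 50) ec (hc n n' hnn); linarith
  · have := up _ d' 1 (1 / 50) ed (hd n n' hnn); linarith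
  · have := low _ (a' + c') 2 (3 / 100) (sum _ _ _ _ ha'.le ec) (hac n n' hnn); linarith
  · have := low _ (b' + d') 2 (3 / 100) (sum _ _ _ _ hb'.le ed) (hbd n n' hnn); linarith
  · have := up _ (a' + d') 1 (3 / 100) (sum _ _ _ _ ha'.le ed) (had n n' hnn); linarith
  · have := up _ (b' + c') 1 (3 / 100) (sum _ _ _ _ hb'.le ec) (hbc n n' hnn); linarith

end Core

/-! ### The two direct sums -/

section Sums

variable {𝕜 : Type} [RCLike 𝕜] {θ : ℕ → ℚ}

/-- The unit vectors of `ℓ₁`. -/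
noncomputable def e1 (n : ℕ) : lp (fun _ : ℕ => 𝕜) 1 := lp.single 1 n (1 : 𝕜)

lemma norm_e1 (n : ℕ) : ‖(e1 n : lp (fun _ : ℕ => 𝕜) 1)‖ = 1 := by
  rw [e1, lp.norm_single (by norm_num), norm_one]

lemma e1_self (n : ℕ) : (e1 n : lp (fun _ : ℕ => 𝕜) 1) n = 1 := by
  rw [e1, lp.single_apply_self]

lemma e1_ne {n m : ℕ} (h : m ≠ n) : (e1 n : lp (fun _ : ℕ => 𝕜) 1) m = 0 := by
  rw [e1, lp.single_apply_ne _ _ _ h]

lemma norm_half : ‖(1 / 2 : 𝕜)‖ = 1 / 2 := by simp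

lemma e1_diff_le (n n' : ℕ) :
    ‖(1 / 2 : 𝕜) • ((e1 n : lp (fun _ : ℕ => 𝕜) 1) - e1 n')‖ ≤ 1 := by
  rw [norm_smul, norm_half]
  have := norm_sub_le (e1 n : lp (fun _ : ℕ => 𝕜) 1) (e1 n')
  rw [norm_e1, norm_e1] at this
  linarith

lemma e1_sum_ge {n n' : ℕ} (hn : n < n') :
    2 ≤ ‖(e1 0 : lp (fun _ : ℕ => 𝕜) 1) + (1 / 2 : 𝕜) • (e1 (n + 1) - e1 (n' + 1))‖ := by
  set f : lp (fun _ : ℕ => 𝕜) 1 := e1 0 + (1 / 2 : 𝕜) • (e1 (n + 1) - e1 (n' + 1)) with hf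
  have h := lp.sum_rpow_le_norm_rpow (p := 1) (by norm_num) f {0, n + 1, n' + 1}
  simp only [ENNReal.toReal_one, Real.rpow_one] at h
  have v : ∀ m, f m = (e1 0 : lp (fun _ : ℕ => 𝕜) 1) m + (1 / 2 : 𝕜) *
      ((e1 (n + 1) : lp (fun _ : ℕ => 𝕜) 1) m - (e1 (n' + 1) : lp (fun _ : ℕ => 𝕜) 1) m) := by
    intro m; rw [hf]; rfl
  rw [Finset.sum_insert (by simp), Finset.sum_insert (by simp; omega), Finset.sum_singleton] at h
  rw [v 0, v (n + 1), v (n' + 1), e1_self, e1_ne (by omega : (0 : ℕ) ≠ n + 1),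
    e1_ne (by omega : (0 : ℕ) ≠ n' + 1), e1_ne (by omega : n + 1 ≠ 0), e1_self,
    e1_ne (by omega : n + 1 ≠ n' + 1), e1_ne (by omega : n' + 1 ≠ 0),
    e1_ne (by omega : n' + 1 ≠ n + 1), e1_self] at h
  simp only [sub_zero, mul_zero, add_zero, norm_one, zero_add, mul_one, norm_half, zero_sub,
    mul_neg, norm_neg] at h
  linarith

/-- The unit vectors of `c₀`. -/
noncomputable def e0 (n : ℕ) : ZeroAtInftyContinuousMap ℕ 𝕜 where
  toFun := Pi.single n 1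
  continuous_toFun := continuous_of_discreteTopology
  zero_at_infty' := by
    rw [Filter.cocompact_eq_cofinite]
    apply tendsto_nhds_of_eventually_eq
    rw [Filter.eventually_cofinite]
    apply (Set.finite_singleton n).subset
    intro m hm
    by_contra hne
    exact hm (Pi.single_eq_of_ne hne _)

lemma e0_self (n : ℕ) : (e0 n : ZeroAtInftyContinuousMap ℕ 𝕜) n = 1 := by
  show (Pi.single n 1 : ℕ → 𝕜) n = 1
  simp

lemma e0_ne {n m : ℕ} (h : m ≠ n) : (e0 n : ZeroAtInftyContinuousMap ℕ 𝕜) m = 0 := by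
  show (Pi.single n 1 : ℕ → 𝕜) m = 0
  exact Pi.single_eq_of_ne h _

lemma c0_norm_le {f : ZeroAtInftyContinuousMap ℕ 𝕜} (h : ∀ m, ‖f m‖ ≤ 1) : ‖f‖ ≤ 1 := by
  rw [← ZeroAtInftyContinuousMap.norm_toBCF_eq_norm]
  exact (BoundedContinuousFunction.norm_le zero_le_one).mpr h

lemma c0_le_norm (f : ZeroAtInftyContinuousMap ℕ 𝕜) (m : ℕ) : ‖f m‖ ≤ ‖f‖ := by
  rw [← ZeroAtInftyContinuousMap.norm_toBCF_eq_norm]
  exact f.toBCF.norm_coe_le_norm m

lemma e0_bound {n n' k : ℕ} (c : 𝕜) (hc : ‖c‖ ≤ 1) (hn : n < n') (hk : k ≠ n) (hk' : k ≠ n') :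
    ‖c • (e0 k : ZeroAtInftyContinuousMap ℕ 𝕜) + (e0 n - e0 n')‖ ≤ 1 := by
  apply c0_norm_le
  intro m
  have v : (c • (e0 k : ZeroAtInftyContinuousMap ℕ 𝕜) + (e0 n - e0 n') :
      ZeroAtInftyContinuousMap ℕ 𝕜) m = c * e0 k m + (e0 n m - e0 n' m) := rfl
  rw [v]
  by_cases h1 : m = k
  · rw [h1, e0_self, e0_ne hk, e0_ne hk']
    simpa using hc
  · rw [e0_ne h1]
    by_cases h2 : m = n
    · rw [h2, e0_self, e0_ne hn.ne]; simp
    · rw [e0_ne h2]
      by_cases h3 : m = n'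
      · rw [h3, e0_self]; simp
      · rw [e0_ne h3]; simp

end Sums

/-- **Main theorem.** For `𝕜 = ℝ` or `ℂ` and for every `θ : ℕ → ℚ` (in particular for every
bijection) the Sierpiński space `X_θ` contains neither an isometric copy of `ℓ₁ ⊕₀ ℓ₁` (the product
with the maximum norm) nor an isometric copy of `c₀ ⊕₁ c₀`. -/
theorem result (𝕜 : Type) [RCLike 𝕜] (θ : ℕ → ℚ) :
    IsEmpty ((lp (fun _ : ℕ => 𝕜) 1 × lp (fun _ : ℕ => 𝕜) 1) →ₗᵢ[𝕜] Sierpinski θ 𝕜) ∧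
    IsEmpty (WithLp 1 (ZeroAtInftyContinuousMap ℕ 𝕜 × ZeroAtInftyContinuousMap ℕ 𝕜)
      →ₗᵢ[𝕜] Sierpinski θ 𝕜) := by
  constructor
  · refine ⟨fun T => ?_⟩
    have key : ∀ (p q p' q' : lp (fun _ : ℕ => 𝕜) 1),
        ‖T (p, q) + (1 / 2 : 𝕜) • (T (p', q'))‖
          = max ‖p + (1 / 2 : 𝕜) • p'‖ ‖q + (1 / 2 : 𝕜) • q'‖ := by
      intro p q p' q'
      rw [← map_smul, ← map_add, T.norm_map]
      rfl
    have key2 : ∀ (p q : lp (fun _ : ℕ => 𝕜) 1),
        ‖(1 / 2 : 𝕜) • (T (p, q))‖ = max ‖(1 / 2 : 𝕜) • p‖ ‖(1 / 2 : 𝕜) • q‖ := by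
      intro p q
      rw [← map_smul, T.norm_map]
      rfl
    have key3 : ∀ (p q : lp (fun _ : ℕ => 𝕜) 1), ‖T (p, q)‖ = max ‖p‖ ‖q‖ := by
      intro p q
      rw [T.norm_map]
      rfl
    have s1 : ∀ m m' : ℕ, T (0, e1 (m + 1)) - T (0, e1 (m' + 1))
        = T (0, e1 (m + 1) - e1 (m' + 1)) := by
      intro m m'
      rw [← map_sub]
      congr 1
      ext1 <;> simp
    have s2 : ∀ m m' : ℕ, T (e1 (m + 1), 0) - T (e1 (m' + 1), 0)
        = T (e1 (m + 1) - e1 (m' + 1), 0) := by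
      intro m m'
      rw [← map_sub]
      congr 1
      ext1 <;> simp
    refine obstruction (T (e1 0, 0)) (T (0, e1 0)) (fun n => T (0, e1 (n + 1)))
      (fun n => T (e1 (n + 1), 0)) (1 / 2) (by rw [norm_half]; norm_num) 1
      ?_ ?_ ?_ ?_ ?_ ?_ ?_ ?_ ?_ ?_
    · intro n; rw [key3, norm_zero, norm_e1]; simp
    · intro n; rw [key3, norm_zero, norm_e1]; simp
    · rw [key3, norm_zero, norm_e1]; simp
    · rw [key3, norm_zero, norm_e1]; simp
    · intro n n' h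
      simp only [s2]
      rw [key2, smul_zero, norm_zero]
      exact max_le (e1_diff_le _ _) zero_le_one
    · intro n n' h
      simp only [s1]
      rw [key2, smul_zero, norm_zero]
      exact max_le zero_le_one (e1_diff_le _ _)
    · intro n n' h
      simp only [s2]
      rw [key]
      exact le_max_of_le_left (e1_sum_ge h)
    · intro n n' h
      simp only [s1]
      rw [key]
      exact le_max_of_le_right (e1_sum_ge h)
    · intro n n' h
      simp only [s1]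
      rw [key, smul_zero, add_zero, zero_add, norm_e1]
      exact max_le le_rfl (e1_diff_le _ _)
    · intro n n' h
      simp only [s2]
      rw [key, smul_zero, add_zero, zero_add, norm_e1]
      exact max_le (e1_diff_le _ _) le_rfl
  · refine ⟨fun T => ?_⟩
    have key : ∀ (p q : ZeroAtInftyContinuousMap ℕ 𝕜),
        ‖T (WithLp.toLp 1 (p, q))‖ = ‖p‖ + ‖q‖ := by
      intro p q
      rw [T.norm_map, WithLp.prod_norm_eq_of_L1]
      rfl
    have key2 : ∀ (p q p' q' : ZeroAtInftyContinuousMap ℕ 𝕜),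
        ‖T (WithLp.toLp 1 (p, q)) + T (WithLp.toLp 1 (p', q'))‖ = ‖p + p'‖ + ‖q + q'‖ := by
      intro p q p' q'
      rw [← map_add, ← key]
      rfl
    have s1 : ∀ m m' : ℕ, T (WithLp.toLp 1 (0, e0 (m + 1))) - T (WithLp.toLp 1 (0, e0 (m' + 1)))
        = T (WithLp.toLp 1 (0, e0 (m + 1) - e0 (m' + 1))) := by
      intro m m'
      rw [← map_sub, ← WithLp.toLp_sub]
      congr 2
      ext1 <;> simp
    have s2 : ∀ m m' : ℕ, T (WithLp.toLp 1 (e0 (m + 1), 0)) - T (WithLp.toLp 1 (e0 (m' + 1), 0))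
        = T (WithLp.toLp 1 (e0 (m + 1) - e0 (m' + 1), 0)) := by
      intro m m'
      rw [← map_sub, ← WithLp.toLp_sub]
      congr 2
      ext1 <;> simp
    have norm_e0 : ∀ n : ℕ, ‖(e0 n : ZeroAtInftyContinuousMap ℕ 𝕜)‖ = 1 := by
      intro n
      apply le_antisymm
      · apply c0_norm_le
        intro m
        by_cases h : m = n
        · rw [h, e0_self]; simp
        · rw [e0_ne h]; simp
      · have := c0_le_norm (e0 n : ZeroAtInftyContinuousMap ℕ 𝕜) n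
        rwa [e0_self, norm_one] at this
    have diff_le : ∀ n n' : ℕ, n < n' →
        ‖(e0 (n + 1) - e0 (n' + 1) : ZeroAtInftyContinuousMap ℕ 𝕜)‖ ≤ 1 := by
      intro n n' h
      have := e0_bound (𝕜 := 𝕜) (n := n + 1) (n' := n' + 1) (k := 0) 0 (by simp) (by omega)
        (by omega) (by omega)
      rwa [zero_smul, zero_add] at this
    have diff_ge : ∀ n n' : ℕ, n < n' →
        1 ≤ ‖(e0 (n + 1) - e0 (n' + 1) : ZeroAtInftyContinuousMap ℕ 𝕜)‖ := by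
      intro n n' h
      have := c0_le_norm (e0 (n + 1) - e0 (n' + 1) : ZeroAtInftyContinuousMap ℕ 𝕜) (n + 1)
      have v : (e0 (n + 1) - e0 (n' + 1) : ZeroAtInftyContinuousMap ℕ 𝕜) (n + 1)
          = e0 (n + 1) (n + 1) - e0 (n' + 1) (n + 1) := rfl
      rw [v, e0_self, e0_ne (by omega), sub_zero, norm_one] at this
      exact this
    have sum_le : ∀ n n' : ℕ, n < n' →
        ‖(e0 0 + (e0 (n + 1) - e0 (n' + 1)) : ZeroAtInftyContinuousMap ℕ 𝕜)‖ ≤ 1 := by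
      intro n n' h
      have := e0_bound (𝕜 := 𝕜) (n := n + 1) (n' := n' + 1) (k := 0) 1 (by simp) (by omega)
        (by omega) (by omega)
      rwa [one_smul] at this
    refine obstruction (T (WithLp.toLp 1 (e0 0, 0))) (T (WithLp.toLp 1 (0, e0 0)))
      (fun n => T (WithLp.toLp 1 (e0 (n + 1), 0)))
      (fun n => T (WithLp.toLp 1 (0, e0 (n + 1)))) 1 (by simp) 1
      ?_ ?_ ?_ ?_ ?_ ?_ ?_ ?_ ?_ ?_
    · intro n; rw [key, norm_zero, norm_e0]; simp
    · intro n; rw [key, norm_zero, norm_e0]; simp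
    · rw [key, norm_zero, norm_e0]; simp
    · rw [key, norm_zero, norm_e0]; simp
    · intro n n' h
      simp only [s1, one_smul]
      rw [key, norm_zero, zero_add]
      exact diff_le n n' h
    · intro n n' h
      simp only [s2, one_smul]
      rw [key, norm_zero, add_zero]
      exact diff_le n n' h
    · intro n n' h
      simp only [s1, one_smul]
      rw [key2, add_zero, zero_add, norm_e0]
      linarith [diff_ge n n' h]
    · intro n n' h
      simp only [s2, one_smul]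
      rw [key2, add_zero, zero_add, norm_e0]
      linarith [diff_ge n n' h]
    · intro n n' h
      simp only [s2, one_smul]
      rw [key2, add_zero, norm_zero, add_zero]
      exact sum_le n n' h
    · intro n n' h
      simp only [s1, one_smul]
      rw [key2, add_zero, norm_zero, zero_add]
      exact sum_le n n' h

end Pool.Agent.Results.MP_adcce9_an.NoIsometricCopies
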